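import Mathlib
import Pool.Agent.H933R3.Defs

set_option autoImplicit false
set_option linter.unusedSectionVars false
set_option linter.unusedVariables false

/-!
# An obstruction to local constructibility

A local system on a complex, given on the regular vertices (`Q`), which is flat around all
`(d-2)`-faces other than `A0` and has a flat section near `A0`.  If the complex is locally
constructible then the local system has a global section.
-/

namespace Pool.Agent.Y364.NL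

open Finset Pool.Agent.H933R3

variable {V : Type} [DecidableEq V] {C : Type}

/-- the data of a local system and its properties -/
structure Loc (d : ℕ) (K : Finset (Finset V)) (Q : V → Prop) (psi : V → V → C → C)
    (A0 : Finset V) (col : V → C) : Prop where
  id : ∀ F, IsFacet K F → ∀ u ∈ F, Q u → ∀ c, psi u u c = c
  coc : ∀ F, IsFacet K F → ∀ u ∈ F, Q u → ∀ v ∈ F, Q v → ∀ w ∈ F, Q w → ∀ c,
    psi v w (psi u v c) = psi u w c
  reg : ∀ A, A.card + 1 = d → A ≠ A0 → (∃ F, IsFacet K F ∧ A ⊆ F) → ∃ u ∈ A, Q u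
  regR : ∀ R, R.card = d → (∃ F, IsFacet K F ∧ R ⊆ F) → ∃ u ∈ R, Q u
  col : ∀ F, IsFacet K F → A0 ⊆ F → ∀ u ∈ F, Q u → ∀ v ∈ F, Q v → psi u v (col u) = col v
  cyc : ∀ F F' R, IsFacet K F → IsFacet K F' → F ≠ F' → R.card = d → A0 ⊆ R → R ⊆ F → R ⊆ F' →
    ∀ G : Finset (Finset V), (∃ R1 ∈ G, A0 ⊆ R1 ∧ R1.card = d ∧ R1 ⊆ F ∧ R1 ≠ R) →
      (∃ R1 ∈ G, A0 ⊆ R1 ∧ R1.card = d ∧ R1 ⊆ F' ∧ R1 ≠ R) →
      ∀ R', A0 ⊆ R' → R'.card = d → (∃ X, IsFacet K X ∧ R' ⊆ X) → R' ∈ insert R G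

/-- sections over a stage of a local construction -/
def IsSec (Q : V → Prop) (psi : V → V → C → C) (𝓕 G : Finset (Finset V))
    (g : Finset V → V → C) : Prop :=
  (∀ F ∈ 𝓕, ∀ u ∈ F, Q u → ∀ v ∈ F, Q v → g F v = psi u v (g F u)) ∧
  ∀ R ∈ G, ∀ X ∈ 𝓕, ∀ Y ∈ 𝓕, R ⊆ X → R ⊆ Y → ∀ u ∈ R, Q u → g X u = g Y u

variable {d : ℕ} {K : Finset (Finset V)} {Q : V → Prop} {psi : V → V → C → C}
  {A0 : Finset V} {col : V → C}

theorem stage_basic {𝓕 G : Finset (Finset V)} (h : LCStage d K 𝓕 G) :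
    (∀ F ∈ 𝓕, IsFacet K F) ∧ (∀ R ∈ G, R.card = d ∧ ∃ X ∈ 𝓕, ∃ Y ∈ 𝓕, X ≠ Y ∧ R ⊆ X ∧ R ⊆ Y) ∧
      𝓕.Nonempty := by
  induction h with
  | start F hF =>
    refine ⟨fun F' h => ?_, fun R hR => absurd hR (notMem_empty R), ⟨F, mem_singleton_self F⟩⟩
    rw [mem_singleton] at h
    rw [h]; exact hF
  | attach 𝓕 G F F' R h hF hF' hn hR h1 h2 hG ih =>
    obtain ⟨i1, i2, -⟩ := ih
    refine ⟨fun X hX => ?_, fun R' hR' => ?_, ⟨F', mem_insert_self _ _⟩⟩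
    · rcases mem_insert.1 hX with rfl | hX
      · exact hF'
      · exact i1 X hX
    · rcases mem_insert.1 hR' with rfl | hR'
      · exact ⟨hR, F, mem_insert_of_mem hF, F', mem_insert_self _ _, fun e => hn (e ▸ hF), h1, h2⟩
      · obtain ⟨j1, X, hX, Y, hY, j2, j3, j4⟩ := i2 R' hR'
        exact ⟨j1, X, mem_insert_of_mem hX, Y, mem_insert_of_mem hY, j2, j3, j4⟩
  | glue 𝓕 G F F' R A h hF hF' hne hR h1 h2 hG hA hAR hs ih =>
    obtain ⟨i1, i2, i3⟩ := ih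
    refine ⟨i1, fun R' hR' => ?_, i3⟩
    rcases mem_insert.1 hR' with rfl | hR'
    · exact ⟨hR, F, hF, F', hF', hne, h1, h2⟩
    · exact i2 R' hR'

theorem sec_same {𝓕 G : Finset (Finset V)} {g : Finset V → V → C} (hg : IsSec Q psi 𝓕 G g)
    {A F F' : Finset V} (h : SameFace 𝓕 G A F F') {u : V} (hu : u ∈ A) (hQ : Q u) :
    g F u = g F' u := by
  induction h with
  | refl => rfl
  | tail _ hs ih =>
    obtain ⟨hX, hY, R, hR, hAR, h1, h2⟩ := hs
    rw [ih]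
    exact hg.2 R hR _ hX _ hY h1 h2 u (hAR hu) hQ

theorem sec_col (hl : Loc d K Q psi A0 col) {𝓕 G : Finset (Finset V)}
    (hb : ∀ F ∈ 𝓕, IsFacet K F) (hbG : ∀ R ∈ G, R.card = d) {g : Finset V → V → C}
    (hg : IsSec Q psi 𝓕 G g) {F F' : Finset V} (h : SameFace 𝓕 G A0 F F')
    (hF : ∀ u ∈ F, Q u → g F u = col u) : ∀ u ∈ F', Q u → g F' u = col u := by
  induction h with
  | refl => exact hF
  | tail _ hs ih =>
    obtain ⟨hX, hY, R, hR, hAR, h1, h2⟩ := hs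
    obtain ⟨u0, hu0, hQ0⟩ := hl.regR R (hbG R hR) ⟨_, hb _ hX, h1⟩
    intro u hu hQ
    rw [hg.1 _ hY u0 (h2 hu0) hQ0 u hu hQ, ← hg.2 R hR _ hX _ hY h1 h2 u0 hu0 hQ0,
      ih u0 (h1 hu0) hQ0]
    exact hl.col _ (hb _ hY) (hAR.trans h2) u0 (h2 hu0) hQ0 u hu hQ

theorem same_head {𝓕 G : Finset (Finset V)} {A F F' : Finset V} (h : SameFace 𝓕 G A F F')
    (hne : F ≠ F') : ∃ R ∈ G, A ⊆ R ∧ R ⊆ F := by
  induction h using Relation.ReflTransGen.head_induction_on with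
  | refl => exact absurd rfl hne
  | head hs _ _ =>
    obtain ⟨_, _, R, hR, hAR, h1, _⟩ := hs
    exact ⟨R, hR, hAR, h1⟩

theorem same_tail {𝓕 G : Finset (Finset V)} {A F F' : Finset V} (h : SameFace 𝓕 G A F F')
    (hne : F ≠ F') : ∃ R ∈ G, A ⊆ R ∧ R ⊆ F' := by
  cases h with
  | refl => exact absurd rfl hne
  | tail _ hs =>
    obtain ⟨_, _, R, hR, hAR, _, h2⟩ := hs
    exact ⟨R, hR, hAR, h2⟩

/-- the invariant: before the last gluing around `A0` all sections over a facet extend, and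
afterwards there still is a section -/
def Inv (d : ℕ) (K : Finset (Finset V)) (Q : V → Prop) (psi : V → V → C → C) (A0 : Finset V)
    (𝓕 G : Finset (Finset V)) : Prop :=
  (∀ F ∈ 𝓕, ∀ u ∈ F, Q u → ∀ c, ∃ g, IsSec Q psi 𝓕 G g ∧ g F u = c) ∨
  ((∃ g, IsSec Q psi 𝓕 G g) ∧
    ∀ R, A0 ⊆ R → R.card = d → (∃ X, IsFacet K X ∧ R ⊆ X) → R ∈ G)

theorem two_of {X F F' R : Finset V} (h2 : AtMostTwo d K) (hR : R.card = d)
    (hX : IsFacet K X) (hF : IsFacet K F) (hF' : IsFacet K F') (hne : F ≠ F')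
    (h1 : R ⊆ X) (h3 : R ⊆ F) (h4 : R ⊆ F') : X = F ∨ X = F' := by
  rcases h2 R hR X F F' hX hF hF' h1 h3 h4 with h | h | h
  · exact Or.inl h
  · exact Or.inr h
  · exact absurd h hne

/-- a section which agrees on the two sides of `R` is a section after gluing along `R` -/
theorem sec_insert (hl : Loc d K Q psi A0 col) (h2 : AtMostTwo d K) {𝓕 G : Finset (Finset V)}
    (hb : ∀ F ∈ 𝓕, IsFacet K F) {g : Finset V → V → C} (hg : IsSec Q psi 𝓕 G g)
    {F F' R : Finset V} (hF : F ∈ 𝓕) (hF' : F' ∈ 𝓕) (hne : F ≠ F') (hR : R.card = d)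
    (h3 : R ⊆ F) (h4 : R ⊆ F') (hu : ∃ u ∈ R, Q u ∧ g F u = g F' u) :
    IsSec Q psi 𝓕 (insert R G) g := by
  refine ⟨hg.1, ?_⟩
  intro R' hR' X hX Y hY h5 h6 v hv hQ
  rcases mem_insert.1 hR' with rfl | hR'
  · obtain ⟨u, huR, hQu, hgu⟩ := hu
    have key : g F v = g F' v := by
      rw [hg.1 F hF u (h3 huR) hQu v (h3 hv) hQ, hg.1 F' hF' u (h4 huR) hQu v (h4 hv) hQ, hgu]
    rcases two_of h2 hR (hb X hX) (hb F hF) (hb F' hF') hne h5 h3 h4 with rfl | rfl <;>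
    rcases two_of h2 hR (hb Y hY) (hb _ hF) (hb _ hF') hne h6 h3 h4 with rfl | rfl
    · rfl
    · exact key
    · exact key.symm
    · rfl
  · exact hg.2 R' hR' X hX Y hY h5 h6 v hv hQ

/-- extending a section to an attached simplex -/
theorem sec_attach (hl : Loc d K Q psi A0 col) (h2 : AtMostTwo d K) {𝓕 G : Finset (Finset V)}
    (hb : ∀ F ∈ 𝓕, IsFacet K F)
    (hbG : ∀ R ∈ G, R.card = d ∧ ∃ X ∈ 𝓕, ∃ Y ∈ 𝓕, X ≠ Y ∧ R ⊆ X ∧ R ⊆ Y)
    {g : Finset V → V → C} (hg : IsSec Q psi 𝓕 G g)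
    {F F' R : Finset V} (hF : F ∈ 𝓕) (hF' : IsFacet K F') (hn : F' ∉ 𝓕) (hR : R.card = d)
    (h3 : R ⊆ F) (h4 : R ⊆ F') {u0 : V} (hu0 : u0 ∈ R) (hQ0 : Q u0) :
    IsSec Q psi (insert F' 𝓕) (insert R G)
      (fun X v => if X = F' then psi u0 v (g F u0) else g X v) := by
  have hne : ∀ X ∈ 𝓕, X ≠ F' := fun X hX e => hn (e ▸ hX)
  constructor
  · intro X hX u hu hQu v hv hQv
    rcases mem_insert.1 hX with rfl | hX
    · simp only [if_true]
      exact (hl.coc X hF' u0 (h4 hu0) hQ0 u hu hQu v hv hQv _).symm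
    · simp only [if_neg (hne X hX)]
      exact hg.1 X hX u hu hQu v hv hQv
  · intro R' hR' X hX Y hY h5 h6 v hv hQ
    rcases mem_insert.1 hR' with rfl | hR'
    · have key : psi u0 v (g F u0) = g F v := (hg.1 F hF u0 (h3 hu0) hQ0 v (h3 hv) hQ).symm
      have hall : ∀ Z ∈ insert F' 𝓕, R' ⊆ Z →
          (if Z = F' then psi u0 v (g F u0) else g Z v) = g F v := by
        intro Z hZ hRZ
        rcases mem_insert.1 hZ with rfl | hZ
        · rw [if_pos rfl, key]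
        · rw [if_neg (hne Z hZ)]
          rcases two_of h2 hR (hb Z hZ) (hb F hF) hF' (hne F hF) hRZ h3 h4 with rfl | h
          · rfl
          · exact absurd h (hne Z hZ)
      exact (hall X hX h5).trans (hall Y hY h6).symm
    · obtain ⟨j1, X', hX', Y', hY', j2, j3, j4⟩ := hbG R' hR'
      have hF'R : ¬ R' ⊆ F' := by
        intro h
        rcases two_of h2 j1 hF' (hb X' hX') (hb Y' hY') j2 h j3 j4 with e | e
        · exact hne X' hX' e.symm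
        · exact hne Y' hY' e.symm
      have hX1 : X ≠ F' := fun e => hF'R (e ▸ h5)
      have hY1 : Y ≠ F' := fun e => hF'R (e ▸ h6)
      simp only [if_neg hX1, if_neg hY1]
      exact hg.2 R' hR' X (mem_of_mem_insert_of_ne hX hX1) Y (mem_of_mem_insert_of_ne hY hY1)
        h5 h6 v hv hQ

theorem inv_stage (hl : Loc d K Q psi A0 col) (h2 : AtMostTwo d K) {𝓕 G : Finset (Finset V)}
    (h : LCStage d K 𝓕 G) : Inv d K Q psi A0 𝓕 G := by
  induction h with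
  | start F hF =>
    left
    intro F' hF' u hu hQ c
    rw [mem_singleton] at hF'
    subst hF'
    refine ⟨fun _ v => psi u v c, ⟨?_, fun R hR => absurd hR (notMem_empty R)⟩, hl.id F' hF u hu hQ c⟩
    intro X hX v hv hQv w hw hQw
    rw [mem_singleton] at hX
    subst hX
    exact (hl.coc X hF u hu hQ v hv hQv w hw hQw c).symm
  | attach 𝓕 G F F' R h hF hF' hn hR h1 h2' hG ih =>
    obtain ⟨hb, hbG, -⟩ := stage_basic h
    obtain ⟨u0, hu0, hQ0⟩ := hl.regR R hR ⟨F, hb F hF, h1⟩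
    rcases ih with ih | ⟨⟨g, hg⟩, ih⟩
    · left
      intro X hX u hu hQ c
      rcases mem_insert.1 hX with rfl | hX
      · obtain ⟨g, hg, hgc⟩ := ih F hF u0 (h1 hu0) hQ0 (psi u u0 c)
        refine ⟨_, sec_attach hl h2 hb hbG hg hF hF' hn hR h1 h2' hu0 hQ0, ?_⟩
        simp only [if_true]
        rw [hgc, hl.coc X hF' u hu hQ u0 (h2' hu0) hQ0 u hu hQ, hl.id X hF' u hu hQ]
      · obtain ⟨g, hg, hgc⟩ := ih X hX u hu hQ c
        refine ⟨_, sec_attach hl h2 hb hbG hg hF hF' hn hR h1 h2' hu0 hQ0, ?_⟩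
        have hXF : X ≠ F' := fun e => hn (e ▸ hX)
        show (if X = F' then psi u0 u (g F u0) else g X u) = c
        rw [if_neg hXF, hgc]
    · right
      refine ⟨⟨_, sec_attach hl h2 hb hbG hg hF hF' hn hR h1 h2' hu0 hQ0⟩, ?_⟩
      intro R' h3 h4 h5
      exact mem_insert_of_mem (ih R' h3 h4 h5)
  | glue 𝓕 G F F' R A h hF hF' hne hR h1 h2' hG hA hAR hs ih =>
    obtain ⟨hb, hbG, -⟩ := stage_basic h
    by_cases hA0 : A = A0
    · subst hA0
      rcases ih with ih | ⟨-, ih⟩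
      · right
        obtain ⟨u0, hu0, hQ0⟩ := hl.regR R hR ⟨F, hb F hF, h1⟩
        obtain ⟨g, hg, hgc⟩ := ih F hF u0 (h1 hu0) hQ0 (col u0)
        have hcF : ∀ u ∈ F, Q u → g F u = col u := by
          intro u hu hQ
          rw [hg.1 F hF u0 (h1 hu0) hQ0 u hu hQ, hgc]
          exact hl.col F (hb F hF) (hAR.trans h1) u0 (h1 hu0) hQ0 u hu hQ
        have hcF' := sec_col hl hb (fun R hR => (hbG R hR).1) hg hs hcF
        refine ⟨⟨g, sec_insert hl h2 hb hg hF hF' hne hR h1 h2'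
          ⟨u0, hu0, hQ0, by rw [hcF u0 (h1 hu0) hQ0, hcF' u0 (h2' hu0) hQ0]⟩⟩, ?_⟩
        obtain ⟨R1, hR1, j1, j2⟩ := same_head hs hne
        obtain ⟨R2, hR2, j3, j4⟩ := same_tail hs hne
        exact hl.cyc F F' R (hb F hF) (hb F' hF') hne hR hAR h1 h2' G
          ⟨R1, hR1, j1, (hbG R1 hR1).1, j2, fun e => hG (e ▸ hR1)⟩
          ⟨R2, hR2, j3, (hbG R2 hR2).1, j4, fun e => hG (e ▸ hR2)⟩
      · exact absurd (ih R hAR hR ⟨F, hb F hF, h1⟩) hG
    · obtain ⟨u, huA, hQ⟩ := hl.reg A hA hA0 ⟨F, hb F hF, hAR.trans h1⟩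
      rcases ih with ih | ⟨⟨g, hg⟩, ih⟩
      · left
        intro X hX v hv hQv c
        obtain ⟨g, hg, hgc⟩ := ih X hX v hv hQv c
        exact ⟨g, sec_insert hl h2 hb hg hF hF' hne hR h1 h2'
          ⟨u, hAR huA, hQ, sec_same hg hs huA hQ⟩, hgc⟩
      · right
        refine ⟨⟨g, sec_insert hl h2 hb hg hF hF' hne hR h1 h2'
          ⟨u, hAR huA, hQ, sec_same hg hs huA hQ⟩⟩, ?_⟩
        intro R' h3 h4 h5
        exact mem_insert_of_mem (ih R' h3 h4 h5)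

/-- **The obstruction.** -/
theorem not_lc (hl : Loc d K Q psi A0 col)
    (hfac : ∀ F, IsFacet K F → ∃ u ∈ F, Q u) [Nonempty C]
    (hK : ∀ σ ∈ K, ∀ τ, τ ⊆ σ → τ ∈ K)
    (hno : ¬ ∃ g : Finset V → V → C,
      (∀ F, IsFacet K F → ∀ u ∈ F, Q u → ∀ v ∈ F, Q v → g F v = psi u v (g F u)) ∧
      ∀ R : Finset V, R.card = d → ∀ X Y, IsFacet K X → IsFacet K Y → R ⊆ X → R ⊆ Y →
        ∀ u ∈ R, Q u → g X u = g Y u) : ¬ IsLC d K := by
  rintro ⟨-, h2, 𝓕, G, hst, hall, hfin⟩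
  obtain ⟨hb, hbG, F, hF⟩ := stage_basic hst
  have hsec : ∃ g, IsSec Q psi 𝓕 G g := by
    rcases inv_stage hl h2 hst with h | ⟨h, -⟩
    · obtain ⟨u, hu, hQ⟩ := hfac F (hb F hF)
      obtain ⟨c⟩ := ‹Nonempty C›
      obtain ⟨g, hg, -⟩ := h F hF u hu hQ c
      exact ⟨g, hg⟩
    · exact h
  obtain ⟨g, hg⟩ := hsec
  apply hno
  refine ⟨g, fun F hF => hg.1 F (hall F hF), ?_⟩
  intro R hR X Y hX hY h3 h4 u hu hQ
  by_cases hXY : X = Y
  · rw [hXY]
  · have hRK : R ∈ K := hK X hX.1 R h3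
    exact sec_same hg (hfin R hRK X (hall X hX) Y (hall Y hY) h3 h4) hu hQ

end Pool.Agent.Y364.NL
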