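import Mathlib
import Pool.Agent.Helper175.NS.Mask
import Pool.Agent.H933R3.Ball

set_option autoImplicit false

/-!
# The join of the complex `B(12,38)` with a simplex is a ball

The complex is generated by the 38 tetrahedra with bit masks `Xm`; a chain of stellar
exchanges transforms it to a single tetrahedron.
-/

namespace Pool.Agent.Y364.NL

open Finset Pool.Agent.Helper175.NS

/-- the 38 tetrahedra on the vertices `0, ..., 11`, as bit masks -/
def Xm : List ℕ := [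
  23, 75, 531, 579, 2061, 329, 2313, 1073, 1553, 1185, 2209, 1345, 1601, 1409, 2433, 1038, 278,
  1286, 2322, 2578, 2242, 2626, 1410, 2434, 1068, 2092, 1316, 2200, 2328, 1192, 2216, 1136,
  2256, 3152, 3600, 1376, 3648, 15]

/-- the pairs of faces of the stellar exchanges -/
def ms : List (ℕ × ℕ) := [
  (288, 68), (3072, 592), (2560, 82), (1040, 544), (544, 1040), (512, 81), (160, 3072),
  (40, 3076), (1040, 97), (1088, 288), (288, 1088), (2112, 146), (129, 3328), (1056, 2112),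
  (2112, 1056), (36, 2112), (1056, 2113), (136, 1040), (384, 3074), (1025, 2368), (12, 1025),
  (2050, 384), (1027, 12), (2176, 1296), (258, 132), (384, 1044), (12, 1027), (72, 258),
  (258, 72), (18, 129), (72, 258), (1088, 2308), (128, 18), (2064, 1288), (3072, 12),
  (32, 2064), (2056, 261), (1025, 14), (1280, 28), (1024, 26), (6, 25), (65, 2050), (2048, 65),
  (9, 6), (8, 274), (6, 273), (3, 336), (1, 84), (16, 6)]

/-- the result of a stellar exchange -/
def exch (l : List ℕ) (ρ ρ' : ℕ) : List ℕ :=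
  ((starB l ρ 13).map (fun h => if h.testBit 13 then (h ^^^ 2 ^ 13) ||| ρ' else h)).dedup

def okX (l l' : List ℕ) (ρ ρ' : ℕ) : Bool :=
  sameB (starB l ρ 13) (starB l' ρ' 13) && l'.all (fun m => decide (m < 8192)) &&
    decide (ρ < 8192) && decide (ρ' < 8192) && decide (bits ρ ≠ []) && decide (bits ρ' ≠ [])

def chainX : List ℕ → List (ℕ × ℕ) → List ℕ → Bool
  | l, [], t => sameB l t
  | l, r :: ms, t => okX l (exch l r.1 r.2) r.1 r.2 && chainX (exch l r.1 r.2) ms t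

theorem chainX_ok : chainX Xm ms [326] = true := by decide +kernel

theorem Xm_small : ∀ m ∈ Xm, m < 8192 := by decide +kernel

/-- the join with a simplex -/
def jn (L : Finset (Finset ℕ)) (N : Finset ℕ) : Finset (Finset ℕ) := L.image (fun F => F ∪ N)

theorem star_jn (L : Finset (Finset ℕ)) (N ρ : Finset ℕ) (v : ℕ) (hN : Disjoint ρ N) :
    star (jn L N) ρ v = jn (star L ρ v) N := by
  have hsub : ∀ F : Finset ℕ, ρ ⊆ F ∪ N ↔ ρ ⊆ F := by
    intro F
    constructor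
    · intro h x hx
      rcases mem_union.1 (h hx) with h1 | h1
      · exact h1
      · exact absurd h1 (disjoint_left.1 hN hx)
    · intro h
      exact h.trans subset_union_left
  have hins : ∀ F : Finset ℕ, ∀ z ∈ ρ, insert v ((F ∪ N).erase z) = insert v (F.erase z) ∪ N := by
    intro F z hz
    have hzN : z ∉ N := disjoint_left.1 hN hz
    rw [insert_union, erase_union_distrib, erase_eq_of_notMem hzN]
  ext A
  rw [mem_star]
  unfold jn
  simp only [mem_image, mem_star]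
  constructor
  · rintro (⟨⟨F, hF, rfl⟩, h2⟩ | ⟨_, ⟨F, hF, rfl⟩, h2, z, hz, rfl⟩)
    · exact ⟨F, Or.inl ⟨hF, fun h => h2 ((hsub F).2 h)⟩, rfl⟩
    · exact ⟨insert v (F.erase z), Or.inr ⟨F, hF, (hsub F).1 h2, z, hz, rfl⟩, (hins F z hz).symm⟩
  · rintro ⟨B, (⟨hB, h2⟩ | ⟨F, hF, h2, z, hz, rfl⟩), rfl⟩
    · exact Or.inl ⟨⟨B, hB, rfl⟩, fun h => h2 ((hsub B).1 h)⟩
    · exact Or.inr ⟨_, ⟨F, hF, rfl⟩, (hsub F).2 h2, z, hz, hins F z hz⟩

theorem dec_nonempty {ρ : ℕ} (h : bits ρ ≠ []) : (dec ρ).Nonempty := by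
  obtain ⟨x, hx⟩ := List.exists_mem_of_ne_nil _ h
  exact ⟨x, mem_bits.1 hx⟩

theorem dec_disj (m : ℕ) {N : Finset ℕ} (hN : ∀ n ∈ N, 14 ≤ n) : Disjoint (dec m) N := by
  rw [disjoint_left]
  intro x hx hxN
  rw [mem_dec] at hx
  have := hN x hxN
  omega

theorem notMem_jn {l : List ℕ} (hl : ∀ m ∈ l, m < 8192) {N : Finset ℕ} (hN : ∀ n ∈ N, 14 ≤ n) :
    ∀ F ∈ jn (decL l) N, 13 ∉ F := by
  intro F hF h13
  obtain ⟨A, hA, rfl⟩ := mem_image.1 hF
  obtain ⟨m, hm, rfl⟩ := mem_decL.1 hA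
  rcases mem_union.1 h13 with h | h
  · have := dec_lt (hl m hm) 13 h
    omega
  · have := hN 13 h
    omega

theorem exch_homeo {l l' : List ℕ} {ρ ρ' : ℕ} (hl : ∀ m ∈ l, m < 8192)
    (h : okX l l' ρ ρ' = true) {N : Finset ℕ} (hN : ∀ n ∈ N, 14 ≤ n) :
    Nonempty (Sp (jn (decL l') N) ≃ₜ Sp (jn (decL l) N)) ∧ ∀ m ∈ l', m < 8192 := by
  simp only [okX, Bool.and_eq_true, decide_eq_true_eq, List.all_eq_true] at h
  obtain ⟨⟨⟨⟨⟨h1, h2⟩, h3⟩, h4⟩, h5⟩, h6⟩ := h
  refine ⟨?_, h2⟩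
  have hd : ∀ r : ℕ, r < 8192 → 13 ∉ dec r := by
    intro r hr h
    have := dec_lt hr 13 h
    omega
  obtain ⟨e1⟩ := star_homeo (jn (decL l) N) (dec ρ) 13 (dec_nonempty h5) (notMem_jn hl hN)
    (hd ρ h3)
  obtain ⟨e2⟩ := star_homeo (jn (decL l') N) (dec ρ') 13 (dec_nonempty h6) (notMem_jn h2 hN)
    (hd ρ' h4)
  have heq : star (jn (decL l) N) (dec ρ) 13 = star (jn (decL l') N) (dec ρ') 13 := by
    rw [star_jn _ _ _ _ (dec_disj ρ hN), star_jn _ _ _ _ (dec_disj ρ' hN), ← decL_starB l ρ h3,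
      ← decL_starB l' ρ' h4, decL_of_sameB h1]
  rw [heq] at e1
  exact ⟨e2.symm.trans e1⟩

theorem chainX_homeo {N : Finset ℕ} (hN : ∀ n ∈ N, 14 ≤ n) (ms : List (ℕ × ℕ)) :
    ∀ (l t : List ℕ), (∀ m ∈ l, m < 8192) → chainX l ms t = true →
      Nonempty (Sp (jn (decL t) N) ≃ₜ Sp (jn (decL l) N)) := by
  induction ms with
  | nil =>
    intro l t _ h
    rw [chainX] at h
    rw [decL_of_sameB h]
    exact ⟨Homeomorph.refl _⟩
  | cons r ms ih =>
    intro l t hl h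
    rw [chainX, Bool.and_eq_true] at h
    obtain ⟨h1, h2⟩ := h
    obtain ⟨⟨e1⟩, h3⟩ := exch_homeo hl h1 hN
    obtain ⟨e2⟩ := ih _ t h3 h2
    exact ⟨e2.trans e1⟩

theorem Xm_homeo {N : Finset ℕ} (hN : ∀ n ∈ N, 14 ≤ n) :
    Nonempty (Sp (jn (decL Xm) N) ≃ₜ
      Metric.closedBall (0 : EuclideanSpace ℝ (Fin (3 + N.card))) 1) := by
  obtain ⟨e1⟩ := chainX_homeo hN ms Xm [326] Xm_small chainX_ok
  have h1 : jn (decL [326]) N = {dec 326 ∪ N} := by
    have : decL [326] = {dec 326} := rfl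
    rw [this, jn, image_singleton]
  have h2 : (dec 326 ∪ N).card = (3 + N.card) + 1 := by
    rw [card_union_of_disjoint (dec_disj 326 hN)]
    have : (dec 326).card = 4 := by decide +kernel
    omega
  obtain ⟨e2⟩ := Pool.Agent.H933R3.simplex_ball (dec 326 ∪ N) (3 + N.card) h2
  rw [h1] at e1
  exact ⟨e1.symm.trans e2⟩

end Pool.Agent.Y364.NL
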