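import Mathlib
import Pool.Agent.Y364.NL.Ball
import Pool.Agent.Y364.NL.Abs
import Pool.Agent.Helper175.NS.Local

set_option autoImplicit false

/-!
# The complex: the join of `B(12,38)` with a simplex
-/

namespace Pool.Agent.Y364.NL

open Finset Pool.Agent.Helper175.NS Pool.Agent.H933R3

/-- the vertex set of `B(12,38)` in a mask, together with all the other vertices -/
def Fm (k m : ℕ) : Finset (Fin (12 + k)) :=
  univ.filter (fun i => (i : ℕ) < 12 → m.testBit i = true)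

/-- the join of `B(12,38)` with the simplex with the `k` vertices `12, ..., 11 + k` -/
def KX (k : ℕ) : Finset (Finset (Fin (12 + k))) :=
  univ.filter (fun σ => ∃ m ∈ Xm, ∀ i ∈ σ, (i : ℕ) < 12 → m.testBit i = true)

theorem mem_Fm {k m : ℕ} {i : Fin (12 + k)} : i ∈ Fm k m ↔ ((i : ℕ) < 12 → m.testBit i = true) := by
  rw [Fm, mem_filter]
  exact ⟨fun h => h.2, fun h => ⟨mem_univ _, h⟩⟩

theorem mem_KX {k : ℕ} {σ : Finset (Fin (12 + k))} : σ ∈ KX k ↔ ∃ m ∈ Xm, σ ⊆ Fm k m := by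
  rw [KX, mem_filter]
  constructor
  · rintro ⟨-, m, hm, h⟩
    exact ⟨m, hm, fun i hi => mem_Fm.2 (h i hi)⟩
  · rintro ⟨m, hm, h⟩
    exact ⟨mem_univ _, m, hm, fun i hi => mem_Fm.1 (h hi)⟩

/-- number of bits below 12 -/
def cnt (m : ℕ) : ℕ := ((range 12).filter (fun i => m.testBit i = true)).card

theorem card_Fm (k m : ℕ) : (Fm k m).card = cnt m + k := by
  have h1 : (Fm k m).card = ∑ i : Fin (12 + k), (if ((i : ℕ) < 12 → m.testBit i = true) then 1 else 0) := by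
    rw [Fm, card_filter]
  rw [h1, Fin.sum_univ_add]
  have h2 : ∀ i : Fin 12, (if (((Fin.castAdd k i : Fin (12 + k)) : ℕ) < 12 →
      m.testBit ((Fin.castAdd k i : Fin (12 + k)) : ℕ) = true) then 1 else 0) =
      (if m.testBit (i : ℕ) = true then 1 else 0) := by
    intro i
    have : ((Fin.castAdd k i : Fin (12 + k)) : ℕ) = i := rfl
    simp only [this, i.2, true_imp_iff]
  have h3 : ∀ i : Fin k, (if (((Fin.natAdd 12 i : Fin (12 + k)) : ℕ) < 12 →
      m.testBit ((Fin.natAdd 12 i : Fin (12 + k)) : ℕ) = true) then 1 else 0) = 1 := by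
    intro i
    have : ((Fin.natAdd 12 i : Fin (12 + k)) : ℕ) = 12 + i := rfl
    rw [this, if_pos (fun h => absurd h (by omega))]
  rw [sum_congr rfl (fun i _ => h2 i), sum_congr rfl (fun i _ => h3 i)]
  rw [Fin.sum_univ_eq_sum_range (fun i => if m.testBit i = true then 1 else 0) 12, ← card_filter,
    sum_const, card_univ, Fintype.card_fin, smul_eq_mul, mul_one]
  rfl

theorem Xm_cnt : ∀ m ∈ Xm, cnt m = 4 := by decide +kernel

theorem Xm_sub : ∀ m ∈ Xm, ∀ m' ∈ Xm, (∀ i < 12, m.testBit i = true → m'.testBit i = true) →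
    m = m' := by decide +kernel

theorem Fm_sub {k m m' : ℕ} (h : Fm k m ⊆ Fm k m') :
    ∀ i < 12, m.testBit i = true → m'.testBit i = true := by
  intro i hi hm
  have h1 : (⟨i, by omega⟩ : Fin (12 + k)) ∈ Fm k m := mem_Fm.2 (fun _ => hm)
  exact mem_Fm.1 (h h1) hi

theorem Fm_inj {k m m' : ℕ} (hm : m ∈ Xm) (hm' : m' ∈ Xm) (h : Fm k m ⊆ Fm k m') : m = m' :=
  Xm_sub m hm m' hm' (Fm_sub h)

theorem facet_iff {k : ℕ} {F : Finset (Fin (12 + k))} :
    IsFacet (KX k) F ↔ ∃ m ∈ Xm, F = Fm k m := by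
  constructor
  · rintro ⟨h1, h2⟩
    obtain ⟨m, hm, h3⟩ := mem_KX.1 h1
    exact ⟨m, hm, (h2 _ (mem_KX.2 ⟨m, hm, Subset.refl _⟩) h3).symm⟩
  · rintro ⟨m, hm, rfl⟩
    refine ⟨mem_KX.2 ⟨m, hm, Subset.refl _⟩, ?_⟩
    intro G hG h
    obtain ⟨m', hm', h3⟩ := mem_KX.1 hG
    have := Fm_inj hm hm' (h.trans h3)
    subst this
    exact Subset.antisymm h3 h

theorem pure_KX (k : ℕ) : ∀ F, IsFacet (KX k) F → F.card = (3 + k) + 1 := by
  intro F hF
  obtain ⟨m, hm, rfl⟩ := facet_iff.1 hF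
  rw [card_Fm, Xm_cnt m hm]
  omega

theorem Xm_two : ∀ m ∈ Xm, ∀ m' ∈ Xm, m ≠ m' → 3 ≤ cnt (m &&& m') →
    ∀ m'' ∈ Xm, m ≠ m'' → m' ≠ m'' → cnt ((m &&& m') &&& m'') < 3 := by
  decide +kernel

theorem Fm_land {k m m' : ℕ} {R : Finset (Fin (12 + k))} (h : R ⊆ Fm k m) (h' : R ⊆ Fm k m') :
    R ⊆ Fm k (m &&& m') := by
  intro i hi
  rw [mem_Fm]
  intro h12
  rw [Nat.testBit_land, mem_Fm.1 (h hi) h12, mem_Fm.1 (h' hi) h12]
  rfl

theorem atMostTwo_KX (k : ℕ) : AtMostTwo (3 + k) (KX k) := by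
  intro R hR X Y Z hX hY hZ h1 h2 h3
  obtain ⟨m, hm, rfl⟩ := facet_iff.1 hX
  obtain ⟨m', hm', rfl⟩ := facet_iff.1 hY
  obtain ⟨m'', hm'', rfl⟩ := facet_iff.1 hZ
  by_contra hcon
  push Not at hcon
  obtain ⟨n1, n2, n3⟩ := hcon
  have a1 : m ≠ m' := fun h => n1 (by rw [h])
  have a2 : m ≠ m'' := fun h => n2 (by rw [h])
  have a3 : m' ≠ m'' := fun h => n3 (by rw [h])
  have b1 := Fm_land h1 h2
  have b2 := Fm_land b1 h3
  have c1 := card_le_card b1
  have c2 := card_le_card b2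
  rw [card_Fm] at c1 c2
  have := Xm_two m hm m' hm' a1 (by omega) m'' hm'' a2 a3
  omega

theorem isCx_KX (k : ℕ) : IsCx (KX k) := by
  refine ⟨mem_KX.2 ⟨23, by decide, empty_subset _⟩, ?_⟩
  intro σ hσ τ hτ
  obtain ⟨m, hm, h⟩ := mem_KX.1 hσ
  exact mem_KX.2 ⟨m, hm, hτ.trans h⟩

/-! ### the realization -/

/-- the renumbering of the vertices -/
def ren (k : ℕ) (i : Fin (12 + k)) : ℕ := if (i : ℕ) < 12 then i else i + 4

theorem ren_inj (k : ℕ) : Function.Injective (ren k) := by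
  intro i j h
  unfold ren at h
  apply Fin.ext
  split_ifs at h <;> omega

/-- the extra vertices -/
def Nk (k : ℕ) : Finset ℕ := (range k).image (fun i => i + 16)

theorem mem_Nk {k n : ℕ} : n ∈ Nk k ↔ 16 ≤ n ∧ n < 16 + k := by
  rw [Nk, mem_image]
  constructor
  · rintro ⟨i, hi, rfl⟩
    rw [mem_range] at hi
    omega
  · rintro ⟨h1, h2⟩
    exact ⟨n - 16, mem_range.2 (by omega), by omega⟩

theorem card_Nk (k : ℕ) : (Nk k).card = k := by
  rw [Nk, card_image_of_injective _ (fun a b h => by simpa using h), card_range]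

theorem Xm_lt : ∀ m ∈ Xm, m < 4096 := by decide +kernel

theorem image_Fm {k m : ℕ} (hm : m ∈ Xm) : (Fm k m).image (ren k) = dec m ∪ Nk k := by
  ext n
  rw [mem_image, mem_union, mem_dec, mem_Nk]
  constructor
  · rintro ⟨i, hi, rfl⟩
    rw [mem_Fm] at hi
    unfold ren
    split_ifs with h
    · left
      exact ⟨by omega, hi h⟩
    · right
      have := i.2
      omega
  · rintro (⟨h1, h2⟩ | ⟨h1, h2⟩)
    · have h3 : n < 12 := by
        by_contra hcon
        rw [Nat.testBit_eq_false_of_lt] at h2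
        · exact absurd h2 (by decide)
        · calc m < 4096 := Xm_lt m hm
            _ = 2 ^ 12 := by norm_num
            _ ≤ 2 ^ n := Nat.pow_le_pow_right (by norm_num) (by omega)
      refine ⟨⟨n, by omega⟩, mem_Fm.2 (fun _ => h2), ?_⟩
      unfold ren
      rw [if_pos h3]
    · refine ⟨⟨n - 4, by omega⟩, mem_Fm.2 (fun h => absurd h (by simp only; omega)), ?_⟩
      unfold ren
      simp only
      rw [if_neg (by omega)]
      omega

/-- the facets -/
def Gk (k : ℕ) : Finset (Finset (Fin (12 + k))) := (Xm.map (Fm k)).toFinset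

theorem mem_Gk {k : ℕ} {F : Finset (Fin (12 + k))} : F ∈ Gk k ↔ ∃ m ∈ Xm, Fm k m = F := by
  rw [Gk, List.mem_toFinset, List.mem_map]

theorem Gk_image (k : ℕ) : (Gk k).image (fun F => F.image (ren k)) = jn (decL Xm) (Nk k) := by
  ext A
  rw [jn, mem_image, mem_image]
  constructor
  · rintro ⟨F, hF, rfl⟩
    obtain ⟨m, hm, rfl⟩ := mem_Gk.1 hF
    exact ⟨dec m, mem_decL.2 ⟨m, hm, rfl⟩, (image_Fm hm).symm⟩
  · rintro ⟨B, hB, rfl⟩
    obtain ⟨m, hm, rfl⟩ := mem_decL.1 hB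
    exact ⟨Fm k m, mem_Gk.2 ⟨m, hm, rfl⟩, image_Fm hm⟩

theorem realization_eq (k : ℕ) : realization (KX k) = Sp (Gk k) := by
  ext x
  constructor
  · rintro ⟨h0, h1, σ, hσ, h2⟩
    obtain ⟨m, hm, h3⟩ := mem_KX.1 hσ
    refine ⟨h0, Fm k m, mem_Gk.2 ⟨m, hm, rfl⟩, fun i hi => h2 i (fun h => hi (h3 h)), ?_⟩
    rw [← h1]
    exact sum_subset (subset_univ _) (fun i _ hi => h2 i (fun h => hi (h3 h)))
  · rintro ⟨h0, F, hF, h1, h2⟩
    obtain ⟨m, hm, rfl⟩ := mem_Gk.1 hF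
    refine ⟨h0, ?_, Fm k m, mem_KX.2 ⟨m, hm, Subset.refl _⟩, h1⟩
    rw [← h2]
    exact (sum_subset (subset_univ _) (fun i _ hi => h1 i hi)).symm

theorem isBall_KX (k : ℕ) : IsBall (3 + k) (KX k) := by
  unfold IsBall
  rw [realization_eq]
  obtain ⟨e1⟩ := relabel_homeo (Gk k) (ren k) univ (fun F _ => subset_univ F)
    ((ren_inj k).injOn)
  rw [Gk_image] at e1
  obtain ⟨e2⟩ := Xm_homeo (N := Nk k) (fun n hn => by have := mem_Nk.1 hn; omega)
  rw [card_Nk] at e2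
  exact ⟨e1.symm.trans e2⟩

/-! ### non-evasiveness -/

theorem cone_nonEvasive {V : Type} [DecidableEq V] (v : V) : ∀ (n : ℕ) (K : Finset (Finset V)),
    K.card ≤ n → IsCx K → (∀ σ ∈ K, insert v σ ∈ K) → NonEvasive K := by
  intro n
  induction n with
  | zero =>
    intro K hn hK _
    rw [Nat.le_zero, card_eq_zero] at hn
    rw [hn] at hK
    exact absurd hK.1 (notMem_empty _)
  | succ n ih =>
    intro K hn hK hc
    have hvK : {v} ∈ K := by
      have := hc ∅ hK.1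
      simpa using this
    by_cases hw : ∃ w, w ≠ v ∧ {w} ∈ K
    · obtain ⟨w, hwv, hwK⟩ := hw
      refine NonEvasive.step K w hwK (ih _ ?_ ?_ ?_) (ih _ ?_ ?_ ?_)
      · have : del K w ⊂ K := by
          refine ⟨filter_subset _ _, fun h => ?_⟩
          have := (mem_filter.1 (h hwK)).2
          exact this (mem_singleton_self w)
        have := card_lt_card this
        omega
      · refine ⟨mem_filter.2 ⟨hK.1, notMem_empty _⟩, fun σ hσ τ hτ => ?_⟩
        rw [del, mem_filter] at hσ ⊢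
        exact ⟨hK.2 σ hσ.1 τ hτ, fun h => hσ.2 (hτ h)⟩
      · intro σ hσ
        rw [del, mem_filter] at hσ ⊢
        refine ⟨hc σ hσ.1, fun h => ?_⟩
        rcases mem_insert.1 h with h | h
        · exact hwv h
        · exact hσ.2 h
      · have : link K w ⊂ K := by
          refine ⟨filter_subset _ _, fun h => ?_⟩
          have := (mem_filter.1 (h hwK)).2.1
          exact this (mem_singleton_self w)
        have := card_lt_card this
        omega
      · refine ⟨mem_filter.2 ⟨hK.1, notMem_empty _, by simpa using hwK⟩, fun σ hσ τ hτ => ?_⟩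
        rw [link, mem_filter] at hσ ⊢
        exact ⟨hK.2 σ hσ.1 τ hτ, fun h => hσ.2.1 (hτ h), hK.2 _ hσ.2.2 _ (insert_subset_insert _ hτ)⟩
      · intro σ hσ
        rw [link, mem_filter] at hσ ⊢
        refine ⟨hc σ hσ.1, fun h => ?_, ?_⟩
        · rcases mem_insert.1 h with h | h
          · exact hwv h
          · exact hσ.2.1 h
        · rw [insert_comm]
          exact hc _ hσ.2.2
    · have : K = {∅, {v}} := by
        ext σ
        rw [mem_insert, mem_singleton]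
        constructor
        · intro hσ
          rw [← subset_singleton_iff]
          intro x hx
          rw [mem_singleton]
          by_contra hxv
          exact hw ⟨x, hxv, hK.2 σ hσ _ (singleton_subset_iff.2 hx)⟩
        · rintro (rfl | rfl)
          · exact hK.1
          · exact hvK
      rw [this]
      exact NonEvasive.point v

theorem nonEvasive_KX (k : ℕ) (hk : 1 ≤ k) : NonEvasive (KX k) := by
  refine cone_nonEvasive ⟨12, by omega⟩ _ _ le_rfl (isCx_KX k) ?_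
  intro σ hσ
  obtain ⟨m, hm, h⟩ := mem_KX.1 hσ
  refine mem_KX.2 ⟨m, hm, insert_subset ?_ h⟩
  exact mem_Fm.2 (fun h => absurd h (by simp))

/-! ### the local system -/

/-- the regular vertices -/
def Qn (i : ℕ) : Prop := i < 12 ∧ i ≠ 10 ∧ i ≠ 11

instance : DecidablePred Qn := fun i => by unfold Qn; infer_instance

def A0 (k : ℕ) : Finset (Fin (12 + k)) := univ.filter (fun i => ¬ Qn i)

theorem mem_A0 {k : ℕ} {i : Fin (12 + k)} : i ∈ A0 k ↔ ¬ Qn i := by
  rw [A0, mem_filter]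
  exact ⟨fun h => h.2, fun h => ⟨mem_univ _, h⟩⟩

theorem A0_eq (k : ℕ) : A0 k = Fm k 3072 := by
  ext i
  rw [mem_A0, mem_Fm]
  have key : ∀ j < 12, (¬ Qn j ↔ Nat.testBit 3072 j = true) := by decide +kernel
  constructor
  · intro h hi
    exact (key i hi).1 h
  · intro h hQ
    exact (key i hQ.1).2 (h hQ.1) hQ

theorem card_A0 (k : ℕ) : (A0 k).card = k + 2 := by
  rw [A0_eq, card_Fm]
  have : cnt 3072 = 2 := by decide +kernel
  omega

/-- the regular vertices of a mask -/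
def rb (m : ℕ) : List ℕ :=
  (List.range 12).filter (fun i => m.testBit i && decide (i ≠ 10) && decide (i ≠ 11))

theorem mem_rb {m i : ℕ} : i ∈ rb m ↔ m.testBit i = true ∧ Qn i := by
  rw [rb, List.mem_filter, List.mem_range, Bool.and_eq_true, Bool.and_eq_true, decide_eq_true_eq,
    decide_eq_true_eq, Qn]
  tauto

theorem rb_of {k m : ℕ} {i : Fin (12 + k)} (h : i ∈ Fm k m) (hQ : Qn i) : (i : ℕ) ∈ rb m :=
  mem_rb.2 ⟨mem_Fm.1 h hQ.1, hQ⟩

/-- the tetrahedra containing the knotted edge -/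
def Ed : List ℕ := Xm.filter (fun m => m.testBit 10 && m.testBit 11)

theorem mem_Ed {m : ℕ} (h : m ∈ Xm) (h1 : m.testBit 10 = true) (h2 : m.testBit 11 = true) :
    m ∈ Ed := by
  rw [Ed, List.mem_filter, h1, h2]
  exact ⟨h, rfl⟩

theorem Xm_id : ∀ m ∈ Xm, ∀ u ∈ rb m, ∀ c, psi u u c = c := by
  decide +kernel

theorem Xm_coc : ∀ m ∈ Xm, ∀ u ∈ rb m, ∀ v ∈ rb m, ∀ w ∈ rb m, ∀ c,
    psi v w (psi u v c) = psi u w c := by
  decide +kernel

theorem Xm_col : ∀ m ∈ Ed, ∀ u ∈ rb m, ∀ v ∈ rb m, psi u v (col 10 u) = col 10 v := by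
  decide +kernel

theorem Xm_cyc : ∀ m ∈ Ed, ∀ m' ∈ Ed, m ≠ m' → ∀ r ∈ rb m, r ∈ rb m' →
    ∀ r1 ∈ rb m, r1 ≠ r → ∀ r2 ∈ rb m', r2 ≠ r → ∀ m'' ∈ Ed, ∀ r' ∈ rb m'',
    r' = r ∨ r' = r1 ∨ r' = r2 := by
  decide +kernel

theorem ridge_form {k : ℕ} {R : Finset (Fin (12 + k))} (h1 : A0 k ⊆ R) (h2 : R.card = 3 + k) :
    ∃ r : Fin (12 + k), Qn r ∧ R = insert r (A0 k) := by
  have h3 : (R \ A0 k).card = 1 := by
    rw [card_sdiff_of_subset h1, h2, card_A0]
    omega
  obtain ⟨r, hr⟩ := card_eq_one.1 h3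
  have h4 : r ∈ R \ A0 k := by rw [hr]; exact mem_singleton_self r
  rw [mem_sdiff] at h4
  refine ⟨r, ?_, ?_⟩
  · by_contra hQ
    exact h4.2 (mem_A0.2 hQ)
  · rw [← sdiff_union_of_subset h1, hr]
    rfl

theorem bits_of {k m : ℕ} (h : A0 k ⊆ Fm k m) : m.testBit 10 = true ∧ m.testBit 11 = true := by
  constructor
  · have h1 : (⟨10, by omega⟩ : Fin (12 + k)) ∈ A0 k := mem_A0.2 (by unfold Qn; simp)
    exact mem_Fm.1 (h h1) (by norm_num)
  · have h1 : (⟨11, by omega⟩ : Fin (12 + k)) ∈ A0 k := mem_A0.2 (by unfold Qn; simp)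
    exact mem_Fm.1 (h h1) (by norm_num)

theorem loc_KX (k : ℕ) : Loc (3 + k) (KX k) (fun i : Fin (12 + k) => Qn i)
    (fun u v => psi (u : ℕ) (v : ℕ)) (A0 k) (fun u => col 10 (u : ℕ)) where
  id := by
    intro F hF u hu hQ c
    obtain ⟨m, hm, rfl⟩ := facet_iff.1 hF
    exact Xm_id m hm u (rb_of hu hQ) c
  coc := by
    intro F hF u hu hQu v hv hQv w hw hQw c
    obtain ⟨m, hm, rfl⟩ := facet_iff.1 hF
    exact Xm_coc m hm u (rb_of hu hQu) v (rb_of hv hQv) w (rb_of hw hQw) c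
  reg := by
    intro A hA hne _
    by_contra hcon
    push Not at hcon
    have h1 : A ⊆ A0 k := fun u hu => mem_A0.2 (hcon u hu)
    apply hne
    apply eq_of_subset_of_card_le h1
    rw [card_A0]
    omega
  regR := by
    intro R hR _
    by_contra hcon
    push Not at hcon
    have h1 : R ⊆ A0 k := fun u hu => mem_A0.2 (hcon u hu)
    have := card_le_card h1
    rw [card_A0] at this
    omega
  col := by
    intro F hF hA u hu hQu v hv hQv
    obtain ⟨m, hm, rfl⟩ := facet_iff.1 hF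
    obtain ⟨h10, h11⟩ := bits_of hA
    exact Xm_col m (mem_Ed hm h10 h11) u (rb_of hu hQu) v (rb_of hv hQv)
  cyc := by
    intro F F' R hF hF' hne hR hAR hRF hRF' G h1 h2 R' hA' hR' hX
    obtain ⟨m, hm, rfl⟩ := facet_iff.1 hF
    obtain ⟨m', hm', rfl⟩ := facet_iff.1 hF'
    obtain ⟨X, hX, hX2⟩ := hX
    obtain ⟨m'', hm'', rfl⟩ := facet_iff.1 hX
    obtain ⟨R1, hR1G, hR1A, hR1c, hR1F, hR1n⟩ := h1
    obtain ⟨R2, hR2G, hR2A, hR2c, hR2F, hR2n⟩ := h2
    obtain ⟨r, hr, rfl⟩ := ridge_form hAR hR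
    obtain ⟨r1, hr1, rfl⟩ := ridge_form hR1A hR1c
    obtain ⟨r2, hr2, rfl⟩ := ridge_form hR2A hR2c
    obtain ⟨r', hr', rfl⟩ := ridge_form hA' hR'
    obtain ⟨a1, a2⟩ := bits_of (hAR.trans hRF)
    obtain ⟨b1, b2⟩ := bits_of (hAR.trans hRF')
    obtain ⟨c1, c2⟩ := bits_of (hA'.trans hX2)
    have hmm : m ≠ m' := fun h => hne (by rw [h])
    have key := Xm_cyc m (mem_Ed hm a1 a2) m' (mem_Ed hm' b1 b2) hmm r
      (rb_of (hRF (mem_insert_self _ _)) hr) (rb_of (hRF' (mem_insert_self _ _)) hr)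
      r1 (rb_of (hR1F (mem_insert_self _ _)) hr1) (fun h => hR1n (by rw [Fin.ext h]))
      r2 (rb_of (hR2F (mem_insert_self _ _)) hr2) (fun h => hR2n (by rw [Fin.ext h]))
      m'' (mem_Ed hm'' c1 c2) r' (rb_of (hX2 (mem_insert_self _ _)) hr')
    rcases key with h | h | h
    · rw [Fin.ext h]
      exact mem_insert_self _ _
    · rw [Fin.ext h]
      exact mem_insert_of_mem hR1G
    · rw [Fin.ext h]
      exact mem_insert_of_mem hR2G

end Pool.Agent.Y364.NL
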