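import Mathlib
import Pool.Agent.Y364.NL.Cpx

set_option autoImplicit false

/-!
# The join of `B(12,38)` with a simplex is not locally constructible
-/

namespace Pool.Agent.Y364.NL

open Finset Pool.Agent.Helper175.NS Pool.Agent.H933R3

theorem loop_no_fixed : ∀ c : Fin 3, c ≠ psi 1 0 (psi 4 1 (psi 3 4 (psi 0 3 c))) := by
  decide +kernel

theorem no_section (k : ℕ) : ¬ ∃ g : Finset (Fin (12 + k)) → Fin (12 + k) → Fin 3,
      (∀ F, IsFacet (KX k) F → ∀ u ∈ F, Qn (u : ℕ) → ∀ v ∈ F, Qn (v : ℕ) →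
        g F v = psi (u : ℕ) (v : ℕ) (g F u)) ∧
      ∀ R : Finset (Fin (12 + k)), R.card = 3 + k → ∀ X Y, IsFacet (KX k) X → IsFacet (KX k) Y →
        R ⊆ X → R ⊆ Y → ∀ u ∈ R, Qn (u : ℕ) → g X u = g Y u := by
  rintro ⟨g, h1, h2⟩
  let G : ℕ → ℕ → Fin 3 := fun m u =>
    if h : u < 12 then g (Fm k m) ⟨u, by omega⟩ else 0
  have hG : ∀ m u, (h : u < 12) → G m u = g (Fm k m) ⟨u, by omega⟩ := fun m u h => dif_pos h
  have flat : ∀ m ∈ Xm, ∀ u ∈ rb m, ∀ v ∈ rb m, G m v = psi u v (G m u) := by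
    intro m hm u hu v hv
    rw [mem_rb] at hu hv
    rw [hG m u hu.2.1, hG m v hv.2.1]
    exact h1 _ (facet_iff.2 ⟨m, hm, rfl⟩) ⟨u, by have := hu.2.1; omega⟩ (mem_Fm.2 fun _ => hu.1)
      hu.2 ⟨v, by have := hv.2.1; omega⟩ (mem_Fm.2 fun _ => hv.1) hv.2
  have step : ∀ m ∈ Xm, ∀ m' ∈ Xm, cnt (m &&& m') = 3 → ∀ u ∈ rb m, u ∈ rb m' →
      G m u = G m' u := by
    intro m hm m' hm' hc u hu hu'
    rw [mem_rb] at hu hu'
    rw [hG m u hu.2.1, hG m' u hu.2.1]
    refine h2 (Fm k (m &&& m')) (by rw [card_Fm, hc]) _ _ (facet_iff.2 ⟨m, hm, rfl⟩)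
      (facet_iff.2 ⟨m', hm', rfl⟩) ?_ ?_ _ ?_ hu.2
    · intro i hi
      rw [mem_Fm] at hi ⊢
      intro h
      have := hi h
      rw [Nat.testBit_land, Bool.and_eq_true] at this
      exact this.1
    · intro i hi
      rw [mem_Fm] at hi ⊢
      intro h
      have := hi h
      rw [Nat.testBit_land, Bool.and_eq_true] at this
      exact this.2
    · rw [mem_Fm]
      intro _
      show (m &&& m').testBit u = true
      rw [Nat.testBit_land, hu.1, hu'.1]
      rfl
  have e1 : G 23 0 = G 15 0 := step 23 (by decide) 15 (by decide) (by decide) 0 (by decide) (by decide)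
  have e2 : G 15 0 = G 2061 0 :=
    step 15 (by decide) 2061 (by decide) (by decide) 0 (by decide) (by decide)
  have e3 : G 2061 0 = G 2313 0 :=
    step 2061 (by decide) 2313 (by decide) (by decide) 0 (by decide) (by decide)
  have e4 : G 2313 3 = psi 0 3 (G 2313 0) := flat 2313 (by decide) 0 (by decide) 3 (by decide)
  have e5 : G 2313 3 = G 2328 3 :=
    step 2313 (by decide) 2328 (by decide) (by decide) 3 (by decide) (by decide)
  have e6 : G 2328 4 = psi 3 4 (G 2328 3) := flat 2328 (by decide) 3 (by decide) 4 (by decide)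
  have e7 : G 2328 4 = G 2322 4 :=
    step 2328 (by decide) 2322 (by decide) (by decide) 4 (by decide) (by decide)
  have e8 : G 2322 1 = psi 4 1 (G 2322 4) := flat 2322 (by decide) 4 (by decide) 1 (by decide)
  have e9 : G 2322 1 = G 278 1 :=
    step 2322 (by decide) 278 (by decide) (by decide) 1 (by decide) (by decide)
  have e10 : G 278 1 = G 23 1 :=
    step 278 (by decide) 23 (by decide) (by decide) 1 (by decide) (by decide)
  have e11 : G 23 0 = psi 1 0 (G 23 1) := flat 23 (by decide) 1 (by decide) 0 (by decide)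
  apply loop_no_fixed (G 23 0)
  rw [← e10, ← e9, e8, ← e7, e6, ← e5, e4, ← e3, ← e2, ← e1] at e11
  exact e11

theorem not_isLC_KX (k : ℕ) : ¬ IsLC (3 + k) (KX k) := by
  refine not_lc (loc_KX k) ?_ (isCx_KX k).2 (no_section k)
  intro F hF
  have hc : F.card = 4 + k := by
    obtain ⟨m, hm, rfl⟩ := facet_iff.1 hF
    rw [card_Fm, Xm_cnt m hm]
  by_contra hcon
  push Not at hcon
  have h1 : F ⊆ A0 k := fun u hu => mem_A0.2 (hcon u hu)
  have := card_le_card h1
  rw [card_A0] at this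
  omega

/-- For every `d ≥ 4` there is a non-evasive simplicial `d`-ball that is not locally
constructible. -/
theorem main (d : ℕ) (hd : 4 ≤ d) : ∃ (n : ℕ) (K : Finset (Finset (Fin n))),
    IsCx K ∧ IsBall d K ∧ (∀ F, IsFacet K F → F.card = d + 1) ∧ AtMostTwo d K ∧
      NonEvasive K ∧ ¬ IsLC d K := by
  obtain ⟨k, rfl⟩ := Nat.exists_eq_add_of_le (show 3 ≤ d by omega)
  exact ⟨12 + k, KX k, isCx_KX k, isBall_KX k, pure_KX k, atMostTwo_KX k,
    nonEvasive_KX k (by omega), not_isLC_KX k⟩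

end Pool.Agent.Y364.NL
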